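import Mathlib

/-!
# Integer vectors close to a complex subspace
-/

set_option autoImplicit false

namespace Pool.Agent.J6H31.AR

/-- the number of the box of side `2 R / A` which contains `x` -/
noncomputable def idx (R : ℝ) (A : ℕ) (x : ℝ) : Fin (A + 1) :=
  ⟨min A ⌊(x + R) * A / (2 * R)⌋₊, Nat.lt_succ_of_le (min_le_left _ _)⟩

lemma idx_close {R : ℝ} {A : ℕ} (hR : 0 < R) (hA : 0 < A) {x y : ℝ} (hx : |x| ≤ R) (hy : |y| ≤ R)
    (h : idx R A x = idx R A y) : |x - y| ≤ 2 * R / A := by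
  have hA' : (0 : ℝ) < A := by exact_mod_cast hA
  rw [abs_le] at hx hy
  have key : ∀ z : ℝ, -R ≤ z ∧ z ≤ R → (idx R A z : ℕ) = ⌊(z + R) * A / (2 * R)⌋₊ := by
    intro z hz
    simp only [idx]
    apply min_eq_right
    apply Nat.floor_le_of_le
    rw [div_le_iff₀ (by positivity)]
    nlinarith [hz.2]
  have h1 : (idx R A x : ℕ) = (idx R A y : ℕ) := by rw [h]
  rw [key x hx, key y hy] at h1
  have hx0 : 0 ≤ (x + R) * A / (2 * R) := by
    apply div_nonneg _ (by positivity)
    apply mul_nonneg _ hA'.le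
    linarith [hx.1]
  have hy0 : 0 ≤ (y + R) * A / (2 * R) := by
    apply div_nonneg _ (by positivity)
    apply mul_nonneg _ hA'.le
    linarith [hy.1]
  have h2 := Nat.floor_le hx0
  have h3 := Nat.floor_le hy0
  have h4 := Nat.lt_floor_add_one ((x + R) * A / (2 * R))
  have h5 := Nat.lt_floor_add_one ((y + R) * A / (2 * R))
  rw [h1] at h2 h4
  set F := (⌊(y + R) * A / (2 * R)⌋₊ : ℝ)
  have h6 : |(x + R) * A / (2 * R) - (y + R) * A / (2 * R)| ≤ 1 := by
    rw [abs_le]; constructor <;> linarith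
  have e : (x + R) * A / (2 * R) - (y + R) * A / (2 * R) = (x - y) * (A / (2 * R)) := by ring
  rw [e, abs_mul, abs_of_pos (by positivity : (0:ℝ) < A / (2 * R))] at h6
  rw [le_div_iff₀ hA']
  rw [mul_div_assoc', div_le_one (by positivity)] at h6
  exact h6

/-- an integer vector as a point of the complex Euclidean space -/
noncomputable def vec {ι : Type*} [Fintype ι] (g : ι → ℤ) : EuclideanSpace ℂ ι :=
  WithLp.toLp 2 fun i => ((g i : ℤ) : ℂ)

lemma vec_apply {ι : Type*} [Fintype ι] (g : ι → ℤ) (i : ι) : vec g i = ((g i : ℤ) : ℂ) := rfl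

lemma norm_vec {ι : Type*} [Fintype ι] (g : ι → ℤ) (Q : ℕ) (hg : ∀ i, |g i| ≤ Q) :
    ‖vec g‖ ≤ Q * Fintype.card ι := by
  rw [EuclideanSpace.norm_eq]
  have h1 : ∑ i, ‖(vec g) i‖ ^ 2 ≤ ∑ _i : ι, (Q : ℝ) ^ 2 := by
    refine Finset.sum_le_sum fun i _ => ?_
    rw [vec_apply, Complex.norm_intCast]
    have h2 : |((g i : ℤ) : ℝ)| ≤ Q := by
      have := hg i
      exact_mod_cast this
    gcongr
  rw [Finset.sum_const, Finset.card_univ, nsmul_eq_mul] at h1
  have h3 : (Fintype.card ι : ℝ) * (Q : ℝ) ^ 2 ≤ (Q * Fintype.card ι) ^ 2 := by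
    have h4 : (Fintype.card ι : ℝ) ≤ (Fintype.card ι : ℝ) ^ 2 := by
      have : Fintype.card ι ≤ Fintype.card ι ^ 2 := by
        rw [pow_two]; exact Nat.le_mul_self _
      exact_mod_cast this
    rw [mul_pow]
    nlinarith [sq_nonneg (Q : ℝ)]
  refine Real.sqrt_le_iff.2 ⟨by positivity, h1.trans h3⟩

lemma vec_sub {ι : Type*} [Fintype ι] (g h : ι → ℤ) : vec (g - h) = vec g - vec h := by
  ext i
  simp [vec]

/-- **Pigeonhole principle.** -/
theorem box {ι : Type*} [Fintype ι] (W : Submodule ℂ (EuclideanSpace ℂ ι)) (Q A : ℕ) (hA : 0 < A)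
    (h : ((A + 1) * (A + 1)) ^ Module.finrank ℂ Wᗮ < (Q + 1) ^ Fintype.card ι) :
    ∃ g : ι → ℤ, g ≠ 0 ∧ (∀ i, |g i| ≤ Q) ∧
      ∀ i, ‖Wᗮ.starProjection (vec g) i‖ ≤ 4 * Q * (Fintype.card ι : ℝ) ^ 2 / A := by
  classical
  set n := Fintype.card ι with hn
  have hA' : (0 : ℝ) < A := by exact_mod_cast hA
  have hn0 : 0 < n := by
    by_contra hcon
    have h0 : n = 0 := by omega
    rw [h0, pow_zero] at h
    have : 0 < ((A + 1) * (A + 1)) ^ Module.finrank ℂ Wᗮ := by positivity
    omega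
  have hQ0 : 0 < Q := by
    by_contra hcon
    have h0 : Q = 0 := by omega
    rw [h0, zero_add, one_pow] at h
    have : 0 < ((A + 1) * (A + 1)) ^ Module.finrank ℂ Wᗮ := by positivity
    omega
  set q := Module.finrank ℂ Wᗮ with hq
  have hqn : q ≤ n := by
    rw [hq, hn, ← finrank_euclideanSpace (𝕜 := ℂ) (ι := ι)]
    exact Submodule.finrank_le _
  let b := stdOrthonormalBasis ℂ Wᗮ
  set R : ℝ := Q * n with hR
  have hR0 : 0 < R := by
    have h1 : (0 : ℝ) < Q := by exact_mod_cast hQ0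
    have h2 : (0 : ℝ) < n := by exact_mod_cast hn0
    positivity
  let toZ : (ι → Fin (Q + 1)) → ι → ℤ := fun v i => ((v i : ℕ) : ℤ)
  let F : (ι → Fin (Q + 1)) → (Fin q → Fin (A + 1) × Fin (A + 1)) := fun v j =>
    (idx R A (inner ℂ (b j : EuclideanSpace ℂ ι) (vec (toZ v))).re,
     idx R A (inner ℂ (b j : EuclideanSpace ℂ ι) (vec (toZ v))).im)
  have hlt : Fintype.card (Fin q → Fin (A + 1) × Fin (A + 1)) < Fintype.card (ι → Fin (Q + 1)) := by
    rw [Fintype.card_fun, Fintype.card_fun, Fintype.card_prod, Fintype.card_fin, Fintype.card_fin,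
      Fintype.card_fin]
    exact h
  obtain ⟨v, v', hne, hF⟩ := Fintype.exists_ne_map_eq_of_card_lt F hlt
  have hvec : ∀ w : ι → Fin (Q + 1), ‖vec (toZ w)‖ ≤ R := by
    intro w
    apply norm_vec
    intro i
    have h1 := (w i).2
    simp only [toZ]
    rw [abs_le]
    constructor <;> omega
  have hb1 : ∀ j, ‖(b j : EuclideanSpace ℂ ι)‖ = 1 := by
    intro j
    exact b.norm_eq_one j
  have hin : ∀ (w : ι → Fin (Q + 1)) (j), ‖inner ℂ (b j : EuclideanSpace ℂ ι) (vec (toZ w))‖ ≤ R := by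
    intro w j
    refine (norm_inner_le_norm _ _).trans ?_
    rw [hb1, one_mul]
    exact hvec w
  refine ⟨toZ v - toZ v', ?_, ?_, ?_⟩
  · intro h0
    apply hne
    funext i
    have h1 := congrFun h0 i
    simp only [toZ, Pi.sub_apply, Pi.zero_apply] at h1
    apply Fin.ext
    omega
  · intro i
    simp only [toZ, Pi.sub_apply]
    have h1 := (v i).2
    have h2 := (v' i).2
    rw [abs_le]
    constructor <;> omega
  · intro i
    set u := vec (toZ v - toZ v') with hu
    have hcl : ∀ j, ‖inner ℂ (b j : EuclideanSpace ℂ ι) u‖ ≤ 4 * R / A := by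
      intro j
      rw [hu, vec_sub, inner_sub_right]
      set x := inner ℂ (b j : EuclideanSpace ℂ ι) (vec (toZ v)) with hx
      set y := inner ℂ (b j : EuclideanSpace ℂ ι) (vec (toZ v')) with hy
      have h1 := congrFun hF j
      simp only [F, Prod.mk.injEq] at h1
      have hx1 : ‖x‖ ≤ R := hin v j
      have hy1 : ‖y‖ ≤ R := hin v' j
      have h2 := idx_close hR0 hA ((Complex.abs_re_le_norm x).trans hx1)
        ((Complex.abs_re_le_norm y).trans hy1) h1.1
      have h3 := idx_close hR0 hA ((Complex.abs_im_le_norm x).trans hx1)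
        ((Complex.abs_im_le_norm y).trans hy1) h1.2
      refine (Complex.norm_le_abs_re_add_abs_im _).trans ?_
      rw [Complex.sub_re, Complex.sub_im]
      calc _ ≤ 2 * R / A + 2 * R / A := add_le_add h2 h3
        _ = _ := by ring
    have h1 : ‖Wᗮ.starProjection u‖ ^ 2 ≤ n * (4 * R / A) ^ 2 := by
      rw [← Submodule.coe_orthogonalProjectionOnto_apply, ← Submodule.coe_norm,
        ← b.sum_sq_norm_inner_right]
      calc ∑ j, ‖inner ℂ (b j) (Wᗮ.orthogonalProjectionOnto u)‖ ^ 2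
          = ∑ j, ‖inner ℂ (b j : EuclideanSpace ℂ ι) u‖ ^ 2 := by
            refine Finset.sum_congr rfl fun j _ => ?_
            rw [Submodule.inner_orthogonalProjectionOnto_eq_of_mem_left]
        _ ≤ ∑ _j : Fin q, (4 * R / A) ^ 2 := by
            refine Finset.sum_le_sum fun j _ => ?_
            have := hcl j
            gcongr
        _ = q * (4 * R / A) ^ 2 := by
            rw [Finset.sum_const, Finset.card_univ, Fintype.card_fin, nsmul_eq_mul]
        _ ≤ n * (4 * R / A) ^ 2 := by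
            have : (q : ℝ) ≤ n := by exact_mod_cast hqn
            gcongr
    have h2 : ‖Wᗮ.starProjection u‖ ≤ n * (4 * R / A) := by
      refine abs_le_of_sq_le_sq' ?_ (by positivity) |>.2
      refine h1.trans ?_
      rw [mul_pow (n : ℝ)]
      have h3 : (n : ℝ) ≤ (n : ℝ) ^ 2 := by
        have : n ≤ n ^ 2 := by
          rw [pow_two]; exact Nat.le_mul_self _
        exact_mod_cast this
      gcongr
    refine (PiLp.norm_apply_le _ i).trans (h2.trans (le_of_eq ?_))
    rw [hR]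
    ring

end Pool.Agent.J6H31.AR
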