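import Mathlib
import Pool.Agent.H338R2.AS.T2

/-!
# A point of the unit circle at which two polynomials with few terms are not small
-/

set_option autoImplicit false

namespace Pool.Agent.J6H31.AR

open Polynomial MeasureTheory

/-- the point of the circle -/
noncomputable def ept (t : ℝ) : ℂ := Complex.exp (2 * Real.pi * Complex.I * t)

lemma norm_ept (t : ℝ) : ‖ept t‖ = 1 := by
  rw [ept, show (2 * Real.pi * Complex.I * t : ℂ) = ((2 * Real.pi * t : ℝ) : ℂ) * Complex.I by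
    push_cast; ring]
  exact Complex.norm_exp_ofReal_mul_I _

lemma ept_pow (t : ℝ) (n : ℕ) :
    ept t ^ n = Complex.exp (2 * Real.pi * Complex.I * ((n : ℤ) : ℂ) * t) := by
  rw [ept, ← Complex.exp_nat_mul]
  congr 1
  push_cast
  ring

lemma small_poly (k : ℕ) (hk : 1 ≤ k) (A : ℂ[X]) (i : ℕ) (hA : A.support.card ≤ k) :
    volume {t : ℝ | t ∈ Set.Icc (0:ℝ) 1 ∧ ‖A.eval (ept t)‖ < ((1 / (80 * k) : ℝ) / 2) ^ k * ‖A.coeff i‖} ≤
      ENNReal.ofReal (1 / 4) := by
  have hk0 : (0 : ℝ) < k := by exact_mod_cast hk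
  have hk1 : (1 : ℝ) ≤ k := by exact_mod_cast hk
  by_cases hi : A.coeff i = 0
  · have : {t : ℝ | t ∈ Set.Icc (0:ℝ) 1 ∧
        ‖A.eval (ept t)‖ < ((1 / (80 * k) : ℝ) / 2) ^ k * ‖A.coeff i‖} = ∅ := by
      ext t
      simp only [Set.mem_ofPred_eq, Set.mem_empty_iff_false, iff_false, not_and, not_lt]
      intro _
      rw [hi]
      simp
    rw [this]
    simp
  · have hmem : i ∈ A.support := mem_support_iff.2 hi
    have hc : 0 < A.support.card := Finset.card_pos.2 ⟨i, hmem⟩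
    obtain ⟨r, hr⟩ : ∃ r, A.support.card = r + 1 := ⟨A.support.card - 1, by omega⟩
    let e := A.support.orderIsoOfFin hr
    let a : Fin (r + 1) → ℤ := fun x => ((e x : ℕ) : ℤ)
    let c : Fin (r + 1) → ℂ := fun x => A.coeff (e x : ℕ)
    have ha : Function.Injective a := by
      intro x y hxy
      have h1 : (e x : ℕ) = (e y : ℕ) := Int.ofNat_inj.1 hxy
      exact e.injective (Subtype.ext h1)
    let j : Fin (r + 1) := e.symm ⟨i, hmem⟩
    have hj : c j = A.coeff i := by simp only [c, j, OrderIso.apply_symm_apply]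
    have hes : ∀ t : ℝ, H338R2.AS.es c a t = A.eval (ept t) := by
      intro t
      rw [eval_eq_sum, Polynomial.sum, H338R2.AS.es, ← Finset.sum_coe_sort A.support,
        ← e.toEquiv.sum_comp]
      refine Finset.sum_congr rfl fun x _ => ?_
      rw [ept_pow]
      rfl
    have h1 := H338R2.AS.small_values c a ha j (1 / (80 * k)) (by positivity)
    simp only [hes, hj] at h1
    refine (measure_mono ?_).trans (h1.trans ?_)
    · intro t ht
      refine ⟨ht.1, lt_of_lt_of_le ht.2 ?_⟩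
      apply mul_le_mul_of_nonneg_right _ (norm_nonneg _)
      apply pow_le_pow_of_le_one (by positivity) _ (by omega)
      rw [div_div, div_le_one (by positivity)]
      linarith
    · apply ENNReal.ofReal_le_ofReal
      have hr' : (r : ℝ) ≤ k := by
        have : r ≤ k := by omega
        exact_mod_cast this
      calc 20 * (r : ℝ) * (1 / (80 * k)) ≤ 20 * k * (1 / (80 * k)) := by gcongr
        _ = 1 / 4 := by field_simp; norm_num

/-- a common point of the circle -/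
theorem exists_point (k : ℕ) : ∃ κ : ℝ, 0 < κ ∧ ∀ (A B : ℂ[X]) (i j : ℕ),
    A.support.card ≤ k → B.support.card ≤ k →
    ∃ z : ℂ, ‖z‖ = 1 ∧ κ * ‖A.coeff i‖ ≤ ‖A.eval z‖ ∧ κ * ‖B.coeff j‖ ≤ ‖B.eval z‖ := by
  set K := k + 1 with hK
  have hK0 : (0 : ℝ) < K := by rw [hK]; positivity
  refine ⟨((1 / (80 * K) : ℝ) / 2) ^ K, by positivity, ?_⟩
  intro A B i j hA hB
  have h1 := small_poly K (by omega) A i (by omega)
  have h2 := small_poly K (by omega) B j (by omega)
  set SA := {t : ℝ | t ∈ Set.Icc (0:ℝ) 1 ∧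
    ‖A.eval (ept t)‖ < ((1 / (80 * K) : ℝ) / 2) ^ K * ‖A.coeff i‖} with hSA
  set SB := {t : ℝ | t ∈ Set.Icc (0:ℝ) 1 ∧
    ‖B.eval (ept t)‖ < ((1 / (80 * K) : ℝ) / 2) ^ K * ‖B.coeff j‖} with hSB
  have h3 : ∃ t ∈ Set.Icc (0 : ℝ) 1, t ∉ SA ∪ SB := by
    by_contra hcon
    push Not at hcon
    have h4 : volume (Set.Icc (0:ℝ) 1) ≤ volume (SA ∪ SB) := measure_mono hcon
    have h5 : volume (SA ∪ SB) ≤ ENNReal.ofReal (1 / 4) + ENNReal.ofReal (1 / 4) :=
      (measure_union_le _ _).trans (add_le_add h1 h2)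
    rw [Real.volume_Icc, ← ENNReal.ofReal_add (by norm_num) (by norm_num)] at *
    have h6 := h4.trans h5
    rw [ENNReal.ofReal_le_ofReal_iff (by norm_num)] at h6
    norm_num at h6
  obtain ⟨t, ht, htn⟩ := h3
  rw [Set.mem_union, not_or] at htn
  refine ⟨ept t, norm_ept t, ?_, ?_⟩
  · by_contra h
    push Not at h
    exact htn.1 ⟨ht, h⟩
  · by_contra h
    push Not at h
    exact htn.2 ⟨ht, h⟩

/-- **A factor of a polynomial with small coefficients.** -/
theorem coeff_bound (k : ℕ) : ∃ κ : ℝ, 0 < κ ∧ ∀ (A B : ℂ[X]) (Y : ℝ),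
    A.support.card ≤ k → B.support.card ≤ k → (∃ i, 1 ≤ ‖A.coeff i‖) →
    (∑ i ∈ (A * B).support, ‖(A * B).coeff i‖ ≤ Y) → ∀ j, ‖B.coeff j‖ ≤ κ * Y := by
  obtain ⟨κ, hκ, h⟩ := exists_point k
  refine ⟨1 / κ ^ 2, by positivity, ?_⟩
  rintro A B Y hA hB ⟨i, hi⟩ hY j
  obtain ⟨z, hz, h1, h2⟩ := h A B i j hA hB
  have h3 : ‖(A * B).eval z‖ ≤ Y := by
    refine le_trans ?_ hY
    rw [eval_eq_sum, Polynomial.sum]
    refine (norm_sum_le _ _).trans (Finset.sum_le_sum fun n _ => ?_)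
    rw [norm_mul, norm_pow, hz, one_pow, mul_one]
  rw [eval_mul, norm_mul] at h3
  have h4 : κ ≤ ‖A.eval z‖ := by
    refine le_trans ?_ h1
    exact le_mul_of_one_le_right hκ.le hi
  have h5 : κ * (κ * ‖B.coeff j‖) ≤ Y :=
    (mul_le_mul h4 h2 (by positivity) (norm_nonneg _)).trans h3
  rw [div_mul_eq_mul_div, one_mul, le_div_iff₀ (by positivity)]
  calc ‖B.coeff j‖ * κ ^ 2 = κ * (κ * ‖B.coeff j‖) := by ring
    _ ≤ Y := h5

end Pool.Agent.J6H31.AR
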