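import Mathlib
import Pool.Agent.J6H31.AR.Box
import Pool.Agent.J6H31.AR.Small

/-!
# Small integer polynomials close to the multiples of a complex polynomial
-/

set_option autoImplicit false

namespace Pool.Agent.J6H31.AR

open Polynomial

/-- the polynomial with the coefficients `c x` at the elements `x` of `S` -/
noncomputable def toP (S : Finset ℕ) : (S → ℂ) →ₗ[ℂ] ℂ[X] where
  toFun c := ∑ x : S, monomial (x : ℕ) (c x)
  map_add' a b := by
    simp only [Pi.add_apply, map_add, Finset.sum_add_distrib]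
  map_smul' r a := by
    simp only [Pi.smul_apply, Finset.smul_sum, smul_monomial, RingHom.id_apply]

lemma coeff_toP {S : Finset ℕ} (c : S → ℂ) (i : ℕ) :
    (toP S c).coeff i = if h : i ∈ S then c ⟨i, h⟩ else 0 := by
  classical
  show (∑ x : S, monomial (x : ℕ) (c x)).coeff i = _
  simp only [finsetSum_coeff, coeff_monomial]
  by_cases h : i ∈ S
  · rw [dif_pos h, Finset.sum_eq_single (⟨i, h⟩ : S)]
    · simp
    · intro b _ hb
      rw [if_neg]
      intro h2
      exact hb (Subtype.ext h2)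
    · intro h2
      exact absurd (Finset.mem_univ _) h2
  · rw [dif_neg h]
    apply Finset.sum_eq_zero
    intro b _
    rw [if_neg]
    intro h2
    exact h (h2 ▸ b.2)

lemma support_toP {S : Finset ℕ} (c : S → ℂ) : (toP S c).support ⊆ S := by
  intro i hi
  rw [mem_support_iff, coeff_toP] at hi
  by_contra h
  rw [dif_neg h] at hi
  exact hi rfl

/-- the coefficients at the elements of `S'` -/
noncomputable def res (S' : Finset ℕ) : ℂ[X] →ₗ[ℂ] EuclideanSpace ℂ S' :=
  (WithLp.linearEquiv 2 ℂ (S' → ℂ)).symm.toLinearMap ∘ₗ LinearMap.pi fun x : S' => lcoeff ℂ (x : ℕ)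

lemma res_apply {S' : Finset ℕ} (P : ℂ[X]) (x : S') : res S' P x = P.coeff (x : ℕ) := rfl

/-- the multiples of `T` -/
noncomputable def mulT (S S' : Finset ℕ) (T : ℂ[X]) : (S → ℂ) →ₗ[ℂ] EuclideanSpace ℂ S' :=
  res S' ∘ₗ LinearMap.mulLeft ℂ T ∘ₗ toP S

lemma mulT_apply {S S' : Finset ℕ} {T : ℂ[X]} (c : S → ℂ) (x : S') :
    mulT S S' T c x = (T * toP S c).coeff (x : ℕ) := rfl

lemma supp_mul {S S' : Finset ℕ} {T B : ℂ[X]} (hS : ∀ x ∈ S, ∀ y ∈ T.support, x + y ∈ S')
    (hB : B.support ⊆ S) : (T * B).support ⊆ S' := by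
  intro i hi
  rw [mem_support_iff, coeff_mul] at hi
  obtain ⟨x, hx, hx0⟩ := Finset.exists_ne_zero_of_sum_ne_zero hi
  rw [Finset.HasAntidiagonal.mem_antidiagonal] at hx
  rw [← hx, add_comm]
  refine hS _ (hB ?_) _ ?_
  · rw [mem_support_iff]; exact right_ne_zero_of_mul hx0
  · rw [mem_support_iff]; exact left_ne_zero_of_mul hx0

lemma mulT_inj {S S' : Finset ℕ} {T : ℂ[X]} (hT : T ≠ 0)
    (hS : ∀ x ∈ S, ∀ y ∈ T.support, x + y ∈ S') : Function.Injective (mulT S S' T) := by
  rw [← LinearMap.ker_eq_bot, LinearMap.ker_eq_bot']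
  intro c hc
  have h1 : T * toP S c = 0 := by
    ext i
    rw [coeff_zero]
    by_cases hi : i ∈ S'
    · have h2 := mulT_apply (T := T) c (⟨i, hi⟩ : S')
      rw [hc] at h2
      exact h2.symm
    · by_contra h2
      exact hi (supp_mul hS (support_toP c) (mem_support_iff.2 h2))
  have h2 : toP S c = 0 := (mul_eq_zero.1 h1).resolve_left hT
  funext x
  have h3 := coeff_toP c (x : ℕ)
  rw [h2, coeff_zero, dif_pos x.2] at h3
  exact h3.symm

theorem pigC (S S' : Finset ℕ) (T : ℂ[X]) (hT : T ≠ 0)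
    (hS : ∀ x ∈ S, ∀ y ∈ T.support, x + y ∈ S') (Q A : ℕ) (hA : 0 < A)
    (h : ((A + 1) * (A + 1)) ^ (S'.card - S.card) < (Q + 1) ^ S'.card) :
    ∃ (G : ℤ[X]) (P B : ℂ[X]), G ≠ 0 ∧ G.support ⊆ S' ∧ (∀ i, |G.coeff i| ≤ Q) ∧
      P.support ⊆ S' ∧ B.support ⊆ S ∧ G.map (Int.castRingHom ℂ) = P + T * B ∧
      ∀ i, ‖P.coeff i‖ ≤ 4 * Q * (S'.card : ℝ) ^ 2 / A := by
  classical
  let W : Submodule ℂ (EuclideanSpace ℂ S') := LinearMap.range (mulT S S' T)
  have hW : Module.finrank ℂ W = S.card := by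
    rw [LinearMap.finrank_range_of_inj (mulT_inj hT hS), Module.finrank_fintype_fun_eq_card,
      Fintype.card_coe]
  have hW' : Module.finrank ℂ Wᗮ = S'.card - S.card := by
    have h1 := Submodule.finrank_add_finrank_orthogonal W
    rw [finrank_euclideanSpace, Fintype.card_coe, hW] at h1
    omega
  obtain ⟨g, hg0, hgQ, hgP⟩ := box W Q A hA (by rw [hW', Fintype.card_coe]; exact h)
  have hsum := Submodule.starProjection_add_starProjection_orthogonal (K := W) (vec g)
  obtain ⟨b, hb⟩ : ∃ b, mulT S S' T b = W.starProjection (vec g) := by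
    have h1 : W.starProjection (vec g) ∈ W := Submodule.starProjection_apply_mem _ _
    exact h1
  let G : ℤ[X] := ∑ x : S', monomial (x : ℕ) (g x)
  have hG : ∀ i, G.coeff i = if h : i ∈ S' then g ⟨i, h⟩ else 0 := by
    intro i
    simp only [G, finsetSum_coeff, coeff_monomial]
    by_cases h : i ∈ S'
    · rw [dif_pos h, Finset.sum_eq_single (⟨i, h⟩ : S')]
      · simp
      · intro b _ hb
        rw [if_neg]
        intro h2
        exact hb (Subtype.ext h2)
      · intro h2
        exact absurd (Finset.mem_univ _) h2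
    · rw [dif_neg h]
      apply Finset.sum_eq_zero
      intro b _
      rw [if_neg]
      intro h2
      exact h (h2 ▸ b.2)
  refine ⟨G, toP S' (fun x => Wᗮ.starProjection (vec g) x), toP S b, ?_, ?_, ?_, support_toP _,
    support_toP _, ?_, ?_⟩
  · intro h0
    apply hg0
    funext x
    have h1 := hG (x : ℕ)
    rw [h0, coeff_zero, dif_pos x.2] at h1
    exact h1.symm
  · intro i hi
    rw [mem_support_iff, hG] at hi
    by_contra h
    rw [dif_neg h] at hi
    exact hi rfl
  · intro i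
    rw [hG]
    split_ifs with h1
    · exact hgQ _
    · simp
  · ext i
    rw [coeff_add, coeff_map, hG, coeff_toP]
    by_cases hi : i ∈ S'
    · rw [dif_pos hi, dif_pos hi, eq_intCast]
      have h1 := congrArg (fun v : EuclideanSpace ℂ S' => v ⟨i, hi⟩) hsum
      simp only [PiLp.add_apply, vec_apply] at h1
      rw [← h1, ← hb, mulT_apply]
      ring
    · rw [dif_neg hi, dif_neg hi, map_zero, zero_add]
      symm
      by_contra h2
      exact hi (supp_mul hS (support_toP b) (mem_support_iff.2 h2))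
  · intro i
    rw [coeff_toP]
    split_ifs with h1
    · have h2 := hgP ⟨i, h1⟩
      rw [Fintype.card_coe] at h2
      exact h2
    · rw [norm_zero]; positivity

end Pool.Agent.J6H31.AR
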