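import Mathlib

/-!
# The resultant inequality with weights
-/

set_option autoImplicit false

namespace Pool.Agent.J6H31.AR

open Polynomial

/-- complexification -/
noncomputable abbrev cx (f : ℤ[X]) : ℂ[X] := f.map (Int.castRingHom ℂ)

lemma one_le_M {g : ℤ[X]} (hg : g ≠ 0) : 1 ≤ (cx g).mahlerMeasure := by
  have h1 := leadingCoeff_le_mahlerMeasure (cx g)
  refine le_trans ?_ h1
  rw [cx, leadingCoeff_map_of_injective (RingHom.injective_int _), eq_intCast, Complex.norm_intCast]
  exact_mod_cast Int.one_le_abs (leadingCoeff_ne_zero.2 hg)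

lemma res_ne_zero {f G : ℤ[X]} (hi : Irreducible f) (hd : f.natDegree ≠ 0) (hnd : ¬ f ∣ G) :
    resultant f G ≠ 0 := by
  have hprim : f.IsPrimitive := hi.isPrimitive hd
  have hiQ : Irreducible (f.map (algebraMap ℤ ℚ)) :=
    (hprim.irreducible_iff_irreducible_map_fraction_map (K := ℚ)).1 hi
  have hco : IsCoprime (f.map (algebraMap ℤ ℚ)) (G.map (algebraMap ℤ ℚ)) := by
    rw [hiQ.coprime_iff_not_dvd]
    intro h
    exact hnd (hprim.dvd_of_fraction_map_dvd_fraction_map h)
  have h1 := resultant_ne_zero _ _ hco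
  intro h0
  apply h1
  rw [natDegree_map_eq_of_injective (RingHom.injective_int _),
    natDegree_map_eq_of_injective (RingHom.injective_int _), resultant_map_map, h0, map_zero]

/-- **The resultant inequality.** -/
theorem res_ineq {f G : ℤ[X]} (hi : Irreducible f) (hd : f.natDegree ≠ 0) (hnd : ¬ f ∣ G)
    (Δ : ℕ) (hΔ : G.natDegree ≤ Δ) (w : ℂ → ℝ) (hw : ∀ z, 0 ≤ w z)
    (h : ∀ z ∈ (cx f).roots, ‖(cx G).eval z‖ ≤ w z * (max 1 ‖z‖) ^ Δ) :
    1 ≤ (cx f).mahlerMeasure ^ Δ * ((cx f).roots.map w).prod := by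
  have hf0 : f ≠ 0 := hi.ne_zero
  have hinj : Function.Injective (Int.castRingHom ℂ) := RingHom.injective_int _
  have h1 : 1 ≤ ‖((resultant f G : ℤ) : ℂ)‖ := by
    rw [Complex.norm_intCast]
    exact_mod_cast Int.one_le_abs (res_ne_zero hi hd hnd)
  have h2 : ((resultant f G : ℤ) : ℂ) = resultant (cx f) (cx G) (cx f).natDegree G.natDegree := by
    rw [cx, natDegree_map_eq_of_injective hinj, resultant_map_map]
    rfl
  rw [h2, resultant_eq_prod_eval (cx f) (cx G) G.natDegree natDegree_map_le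
    (IsAlgClosed.splits _), norm_mul, norm_pow] at h1
  have h3 : 1 ≤ ‖(cx f).leadingCoeff‖ := by
    rw [cx, leadingCoeff_map_of_injective hinj, eq_intCast, Complex.norm_intCast]
    exact_mod_cast Int.one_le_abs (leadingCoeff_ne_zero.2 hf0)
  have h4 : ‖(cx f).leadingCoeff‖ ^ G.natDegree ≤ ‖(cx f).leadingCoeff‖ ^ Δ :=
    pow_le_pow_right₀ h3 hΔ
  have h5 : ‖((cx f).roots.map (fun z => (cx G).eval z)).prod‖ ≤
      ((cx f).roots.map w).prod * (((cx f).roots.map (fun a => max 1 ‖a‖)).prod) ^ Δ := by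
    revert h
    generalize (cx f).roots = s
    intro h
    induction s using Multiset.induction_on with
    | empty => simp
    | cons a s ih =>
      rw [Multiset.map_cons, Multiset.prod_cons, norm_mul, Multiset.map_cons, Multiset.prod_cons,
        Multiset.map_cons, Multiset.prod_cons, mul_pow]
      have h6 := h a (Multiset.mem_cons_self _ _)
      have h7 := ih fun z hz => h z (Multiset.mem_cons_of_mem hz)
      have h8 : 0 ≤ w a * (max 1 ‖a‖) ^ Δ := mul_nonneg (hw a) (by positivity)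
      calc _ ≤ (w a * (max 1 ‖a‖) ^ Δ) *
            ((s.map w).prod * ((s.map (fun a => max 1 ‖a‖)).prod) ^ Δ) :=
            mul_le_mul h6 h7 (norm_nonneg _) h8
        _ = _ := by ring
  rw [mahlerMeasure_eq_leadingCoeff_mul_prod_roots, mul_pow]
  have h9 : (0 : ℝ) ≤ ((cx f).roots.map w).prod := by
    apply Multiset.prod_nonneg
    intro x hx
    obtain ⟨z, _, rfl⟩ := Multiset.mem_map.1 hx
    exact hw z
  calc (1 : ℝ) ≤ ‖(cx f).leadingCoeff‖ ^ G.natDegree *
        ‖((cx f).roots.map (fun z => (cx G).eval z)).prod‖ := h1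
    _ ≤ ‖(cx f).leadingCoeff‖ ^ Δ *
        (((cx f).roots.map w).prod * (((cx f).roots.map (fun a => max 1 ‖a‖)).prod) ^ Δ) :=
        mul_le_mul h4 h5 (norm_nonneg _) (by positivity)
    _ = _ := by ring

/-- two kinds of weights -/
lemma prod_weights (s : Multiset ℂ) (p : ℂ → Prop) [DecidablePred p] (x y : ℝ) :
    (s.map (fun z => if p z then x else y)).prod = x ^ (s.countP p) * y ^ (s.card - s.countP p) := by
  induction s using Multiset.induction_on with
  | empty => simp
  | cons a s ih =>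
    rw [Multiset.map_cons, Multiset.prod_cons, ih, Multiset.countP_cons, Multiset.card_cons]
    have h1 := Multiset.countP_le_card (p := p) s
    by_cases hp : p a
    · rw [if_pos hp, if_pos hp, pow_succ]
      have : s.card + 1 - (s.countP p + 1) = s.card - s.countP p := by omega
      rw [this]
      ring
    · rw [if_neg hp, if_neg hp, add_zero]
      have : s.card + 1 - s.countP p = (s.card - s.countP p) + 1 := by omega
      rw [this, pow_succ]
      ring

lemma eval_le_coeffs (P : ℂ[X]) (S : Finset ℕ) (hS : P.support ⊆ S) (Δ : ℕ)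
    (hΔ : ∀ i ∈ S, i ≤ Δ) (Y : ℝ) (hY : ∀ i, ‖P.coeff i‖ ≤ Y) (z : ℂ) :
    ‖P.eval z‖ ≤ S.card * Y * (max 1 ‖z‖) ^ Δ := by
  have e : P.eval z = ∑ i ∈ S, P.coeff i * z ^ i := by
    rw [eval_eq_sum, Polynomial.sum]
    apply Finset.sum_subset hS
    intro i _ hi
    rw [mem_support_iff, not_not] at hi
    rw [hi, zero_mul]
  rw [e]
  refine (norm_sum_le _ _).trans ?_
  have h1 : ∀ i ∈ S, ‖P.coeff i * z ^ i‖ ≤ Y * (max 1 ‖z‖) ^ Δ := by
    intro i hi
    rw [norm_mul, norm_pow]
    have h3 : ‖z‖ ^ i ≤ (max 1 ‖z‖) ^ Δ :=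
      (pow_le_pow_left₀ (norm_nonneg _) (le_max_right _ _) i).trans
        (pow_le_pow_right₀ (le_max_left _ _) (hΔ i hi))
    exact mul_le_mul (hY i) h3 (by positivity) ((norm_nonneg _).trans (hY i))
  refine (Finset.sum_le_sum h1).trans (le_of_eq ?_)
  rw [Finset.sum_const, nsmul_eq_mul]
  ring

end Pool.Agent.J6H31.AR
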