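import Mathlib
import Pool.Agent.J6H31.AR.Pig
import Pool.Agent.J6H31.AR.ResI
import Pool.Agent.J6H31.LM.Grow
import Pool.Agent.H388SL.Fin

/-!
# Irreducible polynomials with many zeros at which a polynomial with few terms is small
-/

set_option autoImplicit false

namespace Pool.Agent.J6H31.AR

open Polynomial Pool.Agent.J6H31.LM

/-- no zero of `f` is zero or a root of unity -/
def NoCyc (f : ℤ[X]) : Prop := ∀ z : ℂ, aeval z f = 0 → z ≠ 0 ∧ ∀ n : ℕ, 0 < n → z ^ n ≠ 1

lemma exists_t₀ (K : ℕ) (a : ℝ) (ha : 1 < a) : ∃ t₀ : ℕ, ((t₀ + 1 : ℕ) : ℝ) ^ K < a ^ t₀ := by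
  have h := tendsto_pow_const_div_const_pow_of_one_lt K ha
  have h1 : ∀ᶠ n : ℕ in Filter.atTop, (n : ℝ) ^ K / a ^ n < 1 / a :=
    h.eventually_lt_const (by positivity)
  obtain ⟨n, hn⟩ := Filter.eventually_atTop.1 h1
  refine ⟨n, ?_⟩
  have h2 := hn (n + 1) (by omega)
  have ha0 : 0 < a := by linarith
  rw [div_lt_div_iff₀ (by positivity) ha0, one_mul, pow_succ] at h2
  exact lt_of_mul_lt_mul_right h2 ha0.le

/-- the numbers -/
lemma numbers (k m b d : ℕ) (hk : 1 ≤ k) (hm : 1 ≤ m) (hbd : b ≤ d) (hd : d ≤ m * b) :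
    (8 * (4 * (k : ℝ) ^ 2) * k ^ 3 / (4 * (k : ℝ) ^ 2) ^ (3 * m)) ^ b * (k * (4 * (k : ℝ) ^ 2)) ^ (d - b) ≤
      (1 / 2) ^ d := by
  have hk1 : (1 : ℝ) ≤ k := by exact_mod_cast hk
  set Q : ℝ := 4 * (k : ℝ) ^ 2 with hQ
  have hQ1 : 1 ≤ Q := by
    have : (1 : ℝ) ≤ (k : ℝ) ^ 2 := one_le_pow₀ hk1
    linarith
  have hQ0 : 0 < Q := by linarith
  set y : ℝ := k * Q with hy
  have hy1 : 1 ≤ y := by
    rw [hy]
    exact one_le_mul_of_one_le_of_one_le hk1 hQ1
  set x : ℝ := 8 * Q * k ^ 3 / Q ^ (3 * m) with hx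
  have hx0 : 0 < x := by positivity
  have h1 : y ^ (d - b) ≤ (y ^ (m - 1)) ^ b := by
    rw [← pow_mul]
    apply pow_le_pow_right₀ hy1
    have h2 : (m - 1) * b = m * b - b := by rw [Nat.sub_mul, one_mul]
    omega
  have h2 : x * y ^ (m - 1) ≤ (1 / 2) ^ m := by
    obtain ⟨n, rfl⟩ : ∃ n, m = n + 1 := ⟨m - 1, by omega⟩
    rw [Nat.add_sub_cancel, hx, hy, div_mul_eq_mul_div, div_le_iff₀ (by positivity)]
    have e1 : 8 * Q * (k : ℝ) ^ 3 * (k * Q) ^ n = 8 * (k : ℝ) ^ (n + 3) * Q ^ (n + 1) := by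
      rw [mul_pow]; ring
    have e2 : (1 / 2 : ℝ) ^ (n + 1) * Q ^ (3 * (n + 1)) =
        ((1 / 2 : ℝ) ^ (n + 1) * Q ^ (2 * (n + 1))) * Q ^ (n + 1) := by
      rw [show 3 * (n + 1) = 2 * (n + 1) + (n + 1) by ring, pow_add]; ring
    rw [e1, e2]
    apply mul_le_mul_of_nonneg_right _ (by positivity)
    have e3 : (1 / 2 : ℝ) ^ (n + 1) * Q ^ (2 * (n + 1)) = 8 ^ (n + 1) * ((k : ℝ) ^ (4 * (n + 1))) := by
      rw [hQ, pow_mul, ← mul_pow, pow_mul (k : ℝ), ← mul_pow]
      congr 1
      ring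
    rw [e3]
    apply mul_le_mul _ _ (by positivity) (by positivity)
    · rw [pow_succ]
      have : (1 : ℝ) ≤ 8 ^ n := one_le_pow₀ (by norm_num)
      linarith
    · exact pow_le_pow_right₀ hk1 (by omega)
  calc x ^ b * y ^ (d - b) ≤ x ^ b * (y ^ (m - 1)) ^ b := by gcongr
    _ = (x * y ^ (m - 1)) ^ b := (mul_pow x (y ^ (m - 1)) b).symm
    _ ≤ ((1 / 2) ^ m) ^ b := pow_le_pow_left₀ (by positivity) h2 b
    _ = (1 / 2) ^ (m * b) := by rw [← pow_mul]
    _ ≤ (1 / 2) ^ d := pow_le_pow_of_le_one (by norm_num) (by norm_num) hd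

theorem core (N m : ℕ) (hm : 1 ≤ m) :
    ∃ ε c : ℝ, 0 < ε ∧ 0 < c ∧ ∀ (f : ℤ[X]) (T : ℂ[X]), Irreducible f → f.natDegree ≠ 0 →
      NoCyc f → T.support.card ≤ N → (∃ i, 1 ≤ ‖T.coeff i‖) →
      f.natDegree ≤ m * (cx f).roots.countP (fun z => ‖T.eval z‖ ≤ ε) →
      c * f.natDegree ≤ T.natDegree * Real.log (cx f).mahlerMeasure := by
  classical
  set K := N + 1 with hK
  set δ : ℝ := 1 / (8 * m) with hδ
  have hm' : (1 : ℝ) ≤ m := by exact_mod_cast hm
  have hδ0 : 0 < δ := by positivity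
  have hδ1 : δ < 1 := by
    rw [hδ, div_lt_one (by positivity)]
    linarith
  obtain ⟨t₀, ht₀⟩ := exists_t₀ K (1 / (1 - δ)) (by
    rw [lt_div_iff₀ (by linarith)]
    linarith)
  set k : ℕ := (t₀ + 1) ^ K with hk
  have hk0 : 0 < k := by positivity
  have hk1 : (1 : ℝ) ≤ k := by exact_mod_cast hk0
  set Q : ℕ := 4 * k ^ 2 with hQ
  have hQ0 : 0 < Q := by positivity
  set A : ℕ := Q ^ (3 * m) with hA
  have hA0 : 0 < A := by positivity
  have hA0' : (0 : ℝ) < A := by exact_mod_cast hA0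
  obtain ⟨κ, hκ, hcoef⟩ := coeff_bound (N + k)
  obtain ⟨c₁, hc₁, hbad⟩ := Pool.Agent.H388SL.main_log
  set L : ℝ := (k : ℝ) ^ 2 * Real.log (2 * k) ^ 4 with hL
  have hl2k : 0 < Real.log (2 * k) := Real.log_pos (by linarith)
  have hL0 : 0 < L := by positivity
  have hl2 : 0 < Real.log 2 := Real.log_pos (by norm_num)
  set W : ℕ := (t₀ + 1) * K with hW
  have hW0 : (0 : ℝ) < W := by
    have : 0 < W := by positivity
    exact_mod_cast this
  refine ⟨1 / (2 * κ * k * A), min (Real.log 2) (c₁ / L) / W, by positivity, by positivity, ?_⟩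
  intro f T hi hd hc hTN hT1 hcount
  set ε : ℝ := 1 / (2 * κ * k * A) with hε
  set b := (cx f).roots.countP (fun z => ‖T.eval z‖ ≤ ε) with hb
  have hf0 : f ≠ 0 := hi.ne_zero
  have hM1 : 1 ≤ (cx f).mahlerMeasure := one_le_M hf0
  have hlM : 0 ≤ Real.log (cx f).mahlerMeasure := Real.log_nonneg hM1
  have hT0 : T ≠ 0 := by
    rintro rfl
    obtain ⟨i, hi⟩ := hT1
    simp at hi
    linarith
  -- the boxes
  set E : Finset ℕ := insert 0 T.support with hE
  have hEc : E.card ≤ K := (Finset.card_insert_le _ _).trans (by omega)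
  have hbxc : ∀ n, (bx E n).card ≤ (n + 1) ^ K := fun n =>
    (card_bx E n).trans (Nat.pow_le_pow_right (by omega) hEc)
  obtain ⟨t, htt, hslow⟩ := exists_slow (fun n => (bx E n).card)
    (Finset.card_pos.2 ⟨0, zero_mem_bx E 0⟩) 1 t₀ δ hδ1 (by
      refine lt_of_le_of_lt ?_ ht₀
      simp only [mul_one]
      exact_mod_cast hbxc t₀)
  simp only [mul_one] at hslow
  set S := bx E t with hS
  set S' := bx E (t + 1) with hS'
  have hS'k : S'.card ≤ k :=
    (hbxc (t + 1)).trans (Nat.pow_le_pow_left (by omega) K)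
  have hS'0 : 0 < S'.card := Finset.card_pos.2 ⟨0, zero_mem_bx E _⟩
  have hSS' : S ⊆ S' := bx_mono (by omega)
  have hSk : S.card ≤ k := (Finset.card_le_card hSS').trans hS'k
  have hadd : ∀ x ∈ S, ∀ y ∈ T.support, x + y ∈ S' := by
    intro x hx y hy
    exact add_mem_bx hx (mem_bx_one (Finset.mem_insert_of_mem hy))
  set D := T.natDegree with hD
  set Δ : ℕ := W * D with hΔ
  have hΔS : ∀ i ∈ S', i ≤ Δ := by
    intro i hi
    have h1 := le_of_mem_bx (D := D) hi (by
      intro e he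
      rcases Finset.mem_insert.1 he with rfl | he
      · exact Nat.zero_le _
      · exact le_natDegree_of_mem_supp _ he)
    refine h1.trans ?_
    rw [hΔ, hW, mul_assoc]
    exact Nat.mul_le_mul (by omega) (Nat.mul_le_mul_right _ hEc)
  -- the pigeonhole principle
  have hq : 8 * m * (S'.card - S.card) ≤ S'.card := by
    have h1 : ((S'.card - S.card : ℕ) : ℝ) = S'.card - S.card :=
      Nat.cast_sub (Finset.card_le_card hSS')
    have h2 : ((S'.card - S.card : ℕ) : ℝ) ≤ δ * S'.card := by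
      rw [h1]; linarith
    have h3 : (8 * m : ℝ) * ((S'.card - S.card : ℕ) : ℝ) ≤ S'.card := by
      have h4 := mul_le_mul_of_nonneg_left h2 (by positivity : (0:ℝ) ≤ 8 * m)
      refine h4.trans (le_of_eq ?_)
      rw [hδ]
      field_simp
    exact_mod_cast h3
  have hlt : ((A + 1) * (A + 1)) ^ (S'.card - S.card) < (Q + 1) ^ S'.card := by
    have h1 : A + 1 ≤ (Q + 1) ^ (3 * m) := by
      rw [hA]
      have h2 : Q ^ (3 * m) < (Q + 1) ^ (3 * m) := Nat.pow_lt_pow_left (by omega) (by omega)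
      omega
    calc ((A + 1) * (A + 1)) ^ (S'.card - S.card)
        ≤ ((Q + 1) ^ (3 * m) * (Q + 1) ^ (3 * m)) ^ (S'.card - S.card) :=
          Nat.pow_le_pow_left (Nat.mul_le_mul h1 h1) _
      _ = (Q + 1) ^ (6 * m * (S'.card - S.card)) := by
          rw [← pow_add, ← pow_mul]
          congr 1
          ring
      _ < (Q + 1) ^ S'.card := by
          apply Nat.pow_lt_pow_right (by omega)
          rcases Nat.eq_zero_or_pos (S'.card - S.card) with h0 | h0
          · rw [h0, mul_zero]; exact hS'0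
          · refine lt_of_lt_of_le ?_ hq
            apply Nat.mul_lt_mul_of_pos_right _ h0
            omega
  obtain ⟨G, P, B, hG0, hGS, hGQ, hPS, hBS, hGPB, hPc⟩ := pigC S S' T hT0 hadd Q A hA0 hlt
  have hGΔ : G.natDegree ≤ Δ := by
    rw [natDegree_le_iff_coeff_eq_zero]
    intro n hn
    by_contra h
    have := hΔS n (hGS (mem_support_iff.2 h))
    omega
  have hGk : G.support.card ≤ k := (Finset.card_le_card hGS).trans hS'k
  rw [div_mul_eq_mul_div, div_le_iff₀ hW0]
  have hcast : (D : ℝ) * Real.log (cx f).mahlerMeasure * W = (Δ : ℝ) * Real.log (cx f).mahlerMeasure := by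
    rw [hΔ]; push_cast; ring
  rw [hcast]
  have hd0 : (0 : ℝ) ≤ f.natDegree := Nat.cast_nonneg _
  by_cases hfG : f ∣ G
  · -- `f` divides `G`
    have h1 := hbad f G hG0 hfG hc
    have hg1 : 1 ≤ G.support.card := Finset.card_pos.2 (support_nonempty.2 hG0)
    have hg1' : (1 : ℝ) ≤ G.support.card := by exact_mod_cast hg1
    have hgk' : (G.support.card : ℝ) ≤ k := by exact_mod_cast hGk
    have h2 : (G.support.card : ℝ) ^ 2 * Real.log (2 * G.support.card) ^ 4 ≤ L := by
      rw [hL]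
      have h3 : 0 < Real.log (2 * G.support.card) := Real.log_pos (by linarith)
      have h4 : Real.log (2 * G.support.card) ≤ Real.log (2 * k) :=
        Real.log_le_log (by positivity) (by linarith)
      gcongr
    have h3 : 0 < Real.log (2 * G.support.card) := Real.log_pos (by linarith)
    calc min (Real.log 2) (c₁ / L) * f.natDegree ≤ (c₁ / L) * f.natDegree := by
          gcongr; exact min_le_right _ _
      _ = c₁ * f.natDegree / L := by ring
      _ ≤ c₁ * f.natDegree / ((G.support.card : ℝ) ^ 2 * Real.log (2 * G.support.card) ^ 4) := by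
          gcongr
      _ ≤ G.natDegree * Real.log (cx f).mahlerMeasure := h1
      _ ≤ Δ * Real.log (cx f).mahlerMeasure := by
          have : (G.natDegree : ℝ) ≤ Δ := by exact_mod_cast hGΔ
          gcongr
  · -- `f` does not divide `G`
    have hQr : (Q : ℝ) = 4 * (k : ℝ) ^ 2 := by rw [hQ]; push_cast; ring
    have hQ1' : (1 : ℝ) ≤ Q := by exact_mod_cast hQ0
    have hA1' : (1 : ℝ) ≤ A := by exact_mod_cast hA0
    have hS'k' : (S'.card : ℝ) ≤ k := by exact_mod_cast hS'k
    have hSk' : (S.card : ℝ) ≤ k := by exact_mod_cast hSk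
    have hGc : ∀ i, ‖(cx G).coeff i‖ ≤ Q := by
      intro i
      rw [coeff_map, eq_intCast, Complex.norm_intCast]
      exact_mod_cast hGQ i
    have hPc' : ∀ i, ‖P.coeff i‖ ≤ 4 * Q * (k : ℝ) ^ 2 / A := by
      intro i
      refine (hPc i).trans ?_
      gcongr
    have hTBS : (T * B).support ⊆ S' := supp_mul hadd hBS
    have hTBc : ∀ i, ‖(T * B).coeff i‖ ≤ 5 * Q * (k : ℝ) ^ 2 := by
      intro i
      have e : (T * B).coeff i = (cx G).coeff i - P.coeff i := by
        rw [cx, hGPB, coeff_add]; ring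
      rw [e]
      refine (norm_sub_le _ _).trans ?_
      have h1 : 4 * Q * (k : ℝ) ^ 2 / A ≤ 4 * Q * (k : ℝ) ^ 2 :=
        div_le_self (by positivity) hA1'
      have h2 : (Q : ℝ) ≤ Q * (k : ℝ) ^ 2 := le_mul_of_one_le_right (by positivity) (one_le_pow₀ hk1)
      have h3 := hGc i
      have h4 := hPc' i
      linarith
    have hY : ∑ i ∈ (T * B).support, ‖(T * B).coeff i‖ ≤ 5 * Q * (k : ℝ) ^ 3 := by
      calc ∑ i ∈ (T * B).support, ‖(T * B).coeff i‖ ≤ ∑ _i ∈ (T * B).support, 5 * Q * (k : ℝ) ^ 2 :=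
            Finset.sum_le_sum fun i _ => hTBc i
        _ = (T * B).support.card * (5 * Q * (k : ℝ) ^ 2) := by
            rw [Finset.sum_const, nsmul_eq_mul]
        _ ≤ k * (5 * Q * (k : ℝ) ^ 2) := by
            have h1 : ((T * B).support.card : ℝ) ≤ k := by
              exact_mod_cast (Finset.card_le_card hTBS).trans hS'k
            gcongr
        _ = _ := by ring
    have hBc := hcoef T B (5 * Q * (k : ℝ) ^ 3) (by omega)
      ((Finset.card_le_card hBS).trans (by omega)) hT1 hY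
    have key := res_ineq hi hd hfG Δ hGΔ
      (fun z => if ‖T.eval z‖ ≤ ε then 8 * Q * (k : ℝ) ^ 3 / A else k * Q) (by
        intro z; beta_reduce; split_ifs <;> positivity) (by
        intro z _
        beta_reduce
        have hmx : (1 : ℝ) ≤ (max 1 ‖z‖) ^ Δ := one_le_pow₀ (le_max_left _ _)
        split_ifs with hz
        · have e : (cx G).eval z = P.eval z + T.eval z * B.eval z := by
            rw [cx, hGPB, eval_add, eval_mul]
          rw [e]
          have h1 := eval_le_coeffs P S' hPS Δ hΔS _ hPc' z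
          have h2 := eval_le_coeffs B S hBS Δ (fun i hi => hΔS i (hSS' hi)) _ hBc z
          have h3 : ‖T.eval z * B.eval z‖ ≤
              ε * (k * (κ * (5 * Q * (k : ℝ) ^ 3)) * (max 1 ‖z‖) ^ Δ) := by
            rw [norm_mul]
            refine mul_le_mul hz (h2.trans ?_) (norm_nonneg _) (by positivity)
            gcongr
          have h4 : ‖P.eval z‖ ≤ k * (4 * Q * (k : ℝ) ^ 2 / A) * (max 1 ‖z‖) ^ Δ := by
            refine h1.trans ?_
            gcongr
          refine (norm_add_le _ _).trans ?_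
          have h5 : ε * (k * (κ * (5 * Q * (k : ℝ) ^ 3)) * (max 1 ‖z‖) ^ Δ) =
              (5 / 2) * (Q * (k : ℝ) ^ 3 / A) * (max 1 ‖z‖) ^ Δ := by
            rw [hε]; field_simp
          have h6 : k * (4 * Q * (k : ℝ) ^ 2 / A) * (max 1 ‖z‖) ^ Δ =
              4 * (Q * (k : ℝ) ^ 3 / A) * (max 1 ‖z‖) ^ Δ := by ring
          have h7 : 8 * Q * (k : ℝ) ^ 3 / A * (max 1 ‖z‖) ^ Δ =
              8 * (Q * (k : ℝ) ^ 3 / A) * (max 1 ‖z‖) ^ Δ := by ring
          have h8 : 0 ≤ (Q * (k : ℝ) ^ 3 / A) * (max 1 ‖z‖) ^ Δ := by positivity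
          rw [h5] at h3
          rw [h6] at h4
          rw [h7]
          nlinarith
        · have hGS' : (cx G).support ⊆ S' := (support_map_subset _ _).trans hGS
          refine (eval_le_coeffs (cx G) S' hGS' Δ hΔS _ hGc z).trans ?_
          gcongr)
    rw [prod_weights] at key
    have hcard : Multiset.card (cx f).roots = f.natDegree := by
      rw [← natDegree_map_eq_of_injective (RingHom.injective_int (Int.castRingHom ℂ)) f]
      exact (IsAlgClosed.splits (cx f)).natDegree_eq_card_roots.symm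
    have hbd : b ≤ f.natDegree := by
      rw [← hcard]; exact Multiset.countP_le_card _ _
    have hnum := numbers k m b f.natDegree hk0 hm hbd hcount
    rw [hcard, ← hb] at key
    have hAr : (A : ℝ) = (4 * (k : ℝ) ^ 2) ^ (3 * m) := by
      rw [hA, Nat.cast_pow, hQr]
    rw [hAr, hQr] at key
    have h1 : 1 ≤ (cx f).mahlerMeasure ^ Δ * (1 / 2) ^ f.natDegree :=
      key.trans (mul_le_mul_of_nonneg_left hnum (by positivity))
    have h2 : (2 : ℝ) ^ f.natDegree ≤ (cx f).mahlerMeasure ^ Δ := by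
      rw [one_div, inv_pow, ← div_eq_mul_inv, le_div_iff₀ (by positivity), one_mul] at h1
      exact h1
    have h3 := Real.log_le_log (by positivity) h2
    rw [Real.log_pow, Real.log_pow] at h3
    calc min (Real.log 2) (c₁ / L) * f.natDegree ≤ Real.log 2 * f.natDegree := by
          gcongr; exact min_le_left _ _
      _ = f.natDegree * Real.log 2 := mul_comm _ _
      _ ≤ _ := h3

end Pool.Agent.J6H31.AR
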