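import Mathlib
import Pool.Agent.J6H31.AR.Core

/-!
# Polynomials with many zeros at which a polynomial with few terms is small
-/

set_option autoImplicit false

namespace Pool.Agent.J6H31.AR

open Polynomial Pool.Agent.J6H31.LM

lemma NoCyc.left {a b : ℤ[X]} (h : NoCyc (a * b)) : NoCyc a := by
  intro z hz
  apply h z
  rw [map_mul, hz, zero_mul]

lemma NoCyc.right {a b : ℤ[X]} (h : NoCyc (a * b)) : NoCyc b := by
  rw [mul_comm] at h
  exact h.left

open Classical in
theorem combine (N m : ℕ) (hm : 1 ≤ m) :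
    ∃ ε c : ℝ, 0 < ε ∧ 0 < c ∧ ∀ (T : ℂ[X]), T.support.card ≤ N → (∃ i, 1 ≤ ‖T.coeff i‖) →
      ∀ f : ℤ[X], f ≠ 0 → NoCyc f →
      c * ((cx f).roots.countP (fun z => ‖T.eval z‖ ≤ ε) - (1 / m : ℝ) * f.natDegree) ≤
        T.natDegree * Real.log (cx f).mahlerMeasure := by
  obtain ⟨ε, c, hε, hc0, hcore⟩ := core N m hm
  refine ⟨ε, c, hε, hc0, ?_⟩
  intro T hTN hT1 f
  have hm' : (0 : ℝ) < m := by
    have : (1 : ℝ) ≤ m := by exact_mod_cast hm
    linarith
  have hinj : Function.Injective (Int.castRingHom ℂ) := RingHom.injective_int _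
  have hle : ∀ g : ℤ[X], (cx g).roots.countP (fun z => ‖T.eval z‖ ≤ ε) ≤ g.natDegree := by
    intro g
    refine (Multiset.countP_le_card _ _).trans ((card_roots' _).trans ?_)
    exact natDegree_map_le
  induction f using WfDvdMonoid.induction_on_irreducible with
  | zero => intro h; exact absurd rfl h
  | unit u hu =>
    intro hu0 hNC
    have h1 : u.natDegree = 0 := Polynomial.natDegree_eq_zero_of_isUnit hu
    have h2 := hle u
    rw [h1] at h2
    have h3 : (cx u).roots.countP (fun z => ‖T.eval z‖ ≤ ε) = 0 := by omega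
    rw [h1, h3]
    simp only [Nat.cast_zero, mul_zero, sub_zero]
    exact mul_nonneg (Nat.cast_nonneg _) (Real.log_nonneg (one_le_M hu0))
  | mul a i ha hi iha =>
    intro hia0 hNC
    have hi0 : i ≠ 0 := hi.ne_zero
    have hA := iha ha hNC.right
    have hI : c * ((cx i).roots.countP (fun z => ‖T.eval z‖ ≤ ε) - (1 / m : ℝ) * i.natDegree) ≤
        T.natDegree * Real.log (cx i).mahlerMeasure := by
      have hMi : 1 ≤ (cx i).mahlerMeasure := one_le_M hi0
      have hR : 0 ≤ T.natDegree * Real.log (cx i).mahlerMeasure :=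
        mul_nonneg (Nat.cast_nonneg _) (Real.log_nonneg hMi)
      set b := (cx i).roots.countP (fun z => ‖T.eval z‖ ≤ ε) with hb
      by_cases hd : i.natDegree = 0
      · have h2 := hle i
        rw [← hb, hd] at h2
        have h3 : b = 0 := by omega
        rw [h3, hd]
        simpa using hR
      · by_cases h4 : i.natDegree ≤ m * b
        · refine le_trans ?_ (hcore i T hi hd hNC.left hTN hT1 h4)
          apply mul_le_mul_of_nonneg_left _ hc0.le
          have h5 : (b : ℝ) ≤ i.natDegree := by exact_mod_cast hle i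
          have h6 : 0 ≤ (1 / m : ℝ) * i.natDegree := by positivity
          linarith
        · push Not at h4
          refine le_trans (mul_nonpos_of_nonneg_of_nonpos hc0.le ?_) hR
          have h5 : (m : ℝ) * b ≤ i.natDegree := by exact_mod_cast h4.le
          rw [one_div, inv_mul_eq_div, sub_nonpos, le_div_iff₀ hm']
          linarith
    have hMi0 : (cx i).mahlerMeasure ≠ 0 := by
      have := one_le_M hi0
      linarith
    have hMa0 : (cx a).mahlerMeasure ≠ 0 := by
      have := one_le_M ha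
      linarith
    have hroots : (cx (i * a)).roots = (cx i).roots + (cx a).roots := by
      rw [cx, Polynomial.map_mul]
      apply roots_mul
      exact mul_ne_zero ((Polynomial.map_ne_zero_iff hinj).2 hi0)
        ((Polynomial.map_ne_zero_iff hinj).2 ha)
    have hM : (cx (i * a)).mahlerMeasure = (cx i).mahlerMeasure * (cx a).mahlerMeasure := by
      rw [cx, Polynomial.map_mul, mahlerMeasure_mul]
    rw [hroots, Multiset.countP_add, natDegree_mul hi0 ha, hM, Real.log_mul hMi0 hMa0]
    push_cast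
    calc _ = c * ((cx i).roots.countP (fun z => ‖T.eval z‖ ≤ ε) - (1 / m : ℝ) * i.natDegree) +
          c * ((cx a).roots.countP (fun z => ‖T.eval z‖ ≤ ε) - (1 / m : ℝ) * a.natDegree) := by ring
      _ ≤ T.natDegree * Real.log (cx i).mahlerMeasure + T.natDegree * Real.log (cx a).mahlerMeasure :=
        add_le_add hI hA
      _ = _ := by ring

open Classical in
/-- **The main theorem.** -/
theorem main (N : ℕ) (θ : ℝ) (hθ0 : 0 < θ) :
    ∃ ε c : ℝ, 0 < ε ∧ 0 < c ∧ ∀ (f : ℤ[X]) (T : ℂ[X]), NoCyc f → T.support.card ≤ N →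
      (∃ i, 1 ≤ ‖T.coeff i‖) →
      θ * f.natDegree ≤ (cx f).roots.countP (fun z => ‖T.eval z‖ ≤ ε) →
      c * f.natDegree ≤ T.natDegree * Real.log (cx f).mahlerMeasure := by
  obtain ⟨m, hm⟩ := exists_nat_gt (2 / θ)
  have hm0 : (0 : ℝ) < m := lt_trans (by positivity) hm
  have hm1 : 1 ≤ m := by
    rcases Nat.eq_zero_or_pos m with h | h
    · rw [h] at hm0; simp at hm0
    · exact h
  obtain ⟨ε, c, hε, hc0, h⟩ := combine N m hm1
  refine ⟨ε, c * (θ / 2), hε, by positivity, ?_⟩
  intro f T hf hTN hT1 hθ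
  have hf0 : f ≠ 0 := by
    rintro rfl
    have := (hf 0 (by simp)).1
    exact this rfl
  refine le_trans ?_ (h T hTN hT1 f hf0 hf)
  have h1 : (1 / m : ℝ) ≤ θ / 2 := by
    rw [div_le_iff₀ hm0]
    rw [div_lt_iff₀ hθ0] at hm
    linarith
  have h2 : (1 / m : ℝ) * f.natDegree ≤ θ / 2 * f.natDegree := by gcongr
  calc c * (θ / 2) * f.natDegree = c * (θ * f.natDegree - θ / 2 * f.natDegree) := by ring
    _ ≤ _ := by
      apply mul_le_mul_of_nonneg_left _ hc0.le
      linarith

end Pool.Agent.J6H31.AR
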